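import Pool.Agent.H43.DPC.Targets

/-! Row CTN: the `L^n` norm is a continuous seminorm on the Schwartz space. -/

open MeasureTheory SchwartzMap Filter Topology
open scoped ENNReal ContDiff

namespace Pool.Agent.H43.DPC

noncomputable section

/-- the `L^n` norm as a seminorm -/
def CTN_p {d : ℕ} (μ : Measure (SD d)) (hμ : IsMAO μ) (n : ℕ) (hn : 1 ≤ n) :
    Seminorm ℝ (S d) :=
  Seminorm.of (fun f => Nn μ n f)
    (by
      intro f g
      have hf := hμ f n (ENNReal.natCast_ne_top n)
      have hg := hμ g n (ENNReal.natCast_ne_top n)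
      have e : (fun φ : SD d => φ (f + g)) = (fun φ : SD d => φ f) + fun φ : SD d => φ g := by
        funext φ
        exact map_add φ f g
      show (eLpNorm (fun φ : SD d => φ (f + g)) n μ).toReal ≤ _
      rw [e]
      have h1 : (1 : ℝ≥0∞) ≤ (n : ℝ≥0∞) := by exact_mod_cast hn
      have h2 := eLpNorm_add_le hf.1 hg.1 h1
      refine (ENNReal.toReal_mono (ENNReal.add_ne_top.2 ⟨hf.2.ne, hg.2.ne⟩) h2).trans ?_
      rw [ENNReal.toReal_add hf.2.ne hg.2.ne]
      exact le_rfl)
    (by
      intro a f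
      have e : (fun φ : SD d => φ (a • f)) = a • fun φ : SD d => φ f := by
        funext φ
        exact map_smul φ a f
      show (eLpNorm (fun φ : SD d => φ (a • f)) n μ).toReal = ‖a‖ * _
      rw [e, eLpNorm_const_smul, ENNReal.toReal_mul, toReal_enorm]
      rfl)

theorem CTN_lsc {d : ℕ} (μ : Measure (SD d)) (hμ : IsMAO μ) (n : ℕ) (hn : 1 ≤ n) :
    LowerSemicontinuous (CTN_p μ hμ n hn) := by
  rw [lowerSemicontinuous_iff_isClosed_preimage]
  intro y
  refine IsSeqClosed.isClosed ?_
  intro u f hu hf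
  have hfin : ∀ g : S d, eLpNorm (fun φ : SD d => φ g) n μ ≠ ⊤ := fun g =>
    (hμ g n (ENNReal.natCast_ne_top n)).2.ne
  have hy : 0 ≤ y := ENNReal.toReal_nonneg.trans (hu 0)
  have h1 : eLpNorm (fun φ : SD d => φ f) n μ ≤
      liminf (fun k => eLpNorm (fun φ : SD d => φ (u k)) n μ) atTop := by
    refine Lp.eLpNorm_lim_le_liminf_eLpNorm
      (fun k => (hμ (u k) n (ENNReal.natCast_ne_top n)).1) _ ?_
    refine Eventually.of_forall fun φ => ?_
    exact ((map_continuous φ).tendsto f).comp hf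
  have h2 : liminf (fun k => eLpNorm (fun φ : SD d => φ (u k)) n μ) atTop ≤ ENNReal.ofReal y := by
    refine (liminf_le_liminf (Eventually.of_forall fun k => ?_)).trans
      (liminf_const (ENNReal.ofReal y)).le
    rw [← ENNReal.ofReal_toReal (hfin (u k))]
    exact ENNReal.ofReal_le_ofReal (hu k)
  have h3 := ENNReal.toReal_mono ENNReal.ofReal_ne_top (h1.trans h2)
  rw [ENNReal.toReal_ofReal hy] at h3
  exact h3

theorem CTN (hc : T_CPL) : T_CTN := by
  intro d μ _ hμ n hn
  have hcs : CompleteSpace (S d) := hc d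
  have hcg : (uniformity (S d)).IsCountablyGenerated :=
    IsUniformAddGroup.uniformity_countably_generated
  have hB : BaireSpace (S d) := inferInstance
  have hcont := Seminorm.continuous_of_lowerSemicontinuous (CTN_p μ hμ n hn)
    (CTN_lsc μ hμ n hn)
  obtain ⟨s, C, -, h⟩ := Seminorm.bound_of_continuous (schwartz_withSeminorms ℝ (V d) ℝ) _ hcont
  refine ⟨C, s.sup (fun p => max p.1 p.2), C.2, fun f => ?_⟩
  have hs : s ⊆ Finset.Iic (s.sup (fun p => max p.1 p.2), s.sup (fun p => max p.1 p.2)) := by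
    intro p hp
    rw [Finset.mem_Iic]
    have h1 := Finset.le_sup (f := fun p : ℕ × ℕ => max p.1 p.2) hp
    exact ⟨(le_max_left _ _).trans h1, (le_max_right _ _).trans h1⟩
  have h2 := h f
  refine h2.trans ?_
  have h3 : s.sup (schwartzSeminormFamily ℝ (V d) ℝ) ≤
      (Finset.Iic (s.sup (fun p => max p.1 p.2), s.sup (fun p => max p.1 p.2))).sup
        (schwartzSeminormFamily ℝ (V d) ℝ) := Finset.sup_mono hs
  exact mul_le_mul_of_nonneg_left (h3 f) C.2

end

end Pool.Agent.H43.DPC
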